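import Pool.Agent.P.MP_aee195_lc.Ultra
import Pool.Agent.P.MP_aee195_lc.Amp

set_option autoImplicit false

namespace Pool.Agent.Results.MP_aee195_lc.Embed

open Pool.Agent.P.MP_aee195_lc Filter

universe u v

theorem result {A : Type v} [Ring A] [StarRing A] [Algebra ℂ A]
    {H : Type u} [NormedAddCommGroup H] [InnerProductSpace ℂ H] [CompleteSpace H]
    (M : VonNeumannAlgebra H) (ι : A →⋆ₐ[ℂ] (H →L[ℂ] H)) (hinj : Function.Injective ι)
    (hM : Set.range ι = M) (lam : ℝ) (h0 : 0 < lam) (h1 : lam < 1) (hIII : IsFactorIII ι lam)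
    (φ ψ : A → ℂ) (hφ : IsPeriodicState ι lam φ) (hψ : IsPeriodicState ι lam ψ)
    (U : Ultrafilter ℕ) (hU : (U : Filter ℕ) ≤ cofinite) :
    ∃ π E, IsUltraHom ι φ ψ U π ∧ IsExpectation ι φ ψ U π E := by
  let R := baseRep M ι hinj hM
  obtain ⟨ξ, rfl, h2, h3⟩ := R.gr_ampl h0 h1 hIII hφ
  obtain ⟨η, rfl, h4, h5⟩ := R.gr_ampl h0 h1 hIII hψ
  obtain ⟨π, E, a1, b1, b2, b3, b4, b5, b6, b7⟩ := Rep.ultra h2 h4 h0 h1 hIII.1 h3 h5 U hU
  have hn : ∀ a, ‖ι a‖ = ‖R.ampl.ρ a‖ := R.norm_ampl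
  have e1 : Null ι (R.ampl.vs η) U = Null R.ampl.ρ (R.ampl.vs η) U := by
    funext x; simp only [Null, hn]
  have e2 : Mult ι (R.ampl.vs η) U = Mult R.ampl.ρ (R.ampl.vs η) U := by
    funext x; simp only [Mult, hn, e1]
  refine ⟨π, E, by simpa only [IsUltraHom, e1, e2] using a1, ?_⟩
  simp only [IsExpectation, e1, e2]
  exact ⟨b1, b2, b3, b4, b5, fun x hx => R.pos_of_ampl (b6 x hx), b7⟩

end Pool.Agent.Results.MP_aee195_lc.Embed
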