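import Pool.Agent.P.MP_aee195_lc.Univ

set_option autoImplicit false

namespace Pool.Agent.Results.MP_aee195_lc.UnivTh

open Pool.Agent.P.MP_aee195_lc

universe u v

theorem result {A : Type v} [Ring A] [StarRing A] [Algebra ℂ A]
    {H : Type u} [NormedAddCommGroup H] [InnerProductSpace ℂ H] [CompleteSpace H]
    (M : VonNeumannAlgebra H) (ι : A →⋆ₐ[ℂ] (H →L[ℂ] H)) (hinj : Function.Injective ι)
    (hM : Set.range ι = M) (lam : ℝ) (h0 : 0 < lam) (h1 : lam < 1) (hIII : IsFactorIII ι lam)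
    (φ ψ : A → ℂ) (σ τ : ℝ → (A ≃⋆ₐ[ℂ] A)) (hφ : IsFNState ι φ) (hψ : IsFNState ι ψ)
    (hσ : IsModularGroup ι φ σ) (hτ : IsModularGroup ι ψ τ)
    (hσ' : ∀ x, σ (2 * Real.pi / |Real.log lam|) x = x)
    (hτ' : ∀ x, τ (2 * Real.pi / |Real.log lam|) x = x)
    (n m : ℕ) (flag : Fin n → Bool) (r : Fin n → ℝ) (t : Fin m → Term n)
    (F : (Fin m → ℂ × ℝ) → ℝ) (hF : Continuous F) :
    univVal ι φ σ flag r t F = univVal ι ψ τ flag r t F :=
  le_antisymm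
    ((baseRep M ι hinj hM).univ_le h0 h1 hIII hφ hψ hσ hτ hσ' hτ' flag r t hF)
    ((baseRep M ι hinj hM).univ_le h0 h1 hIII hψ hφ hτ hσ hτ' hσ' flag r t hF)

end Pool.Agent.Results.MP_aee195_lc.UnivTh
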